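import Pool.Agent.K9h54.PA.P2

set_option autoImplicit false

/-!
# The average `π`-adic complexity of finite sequences is `n / 2 + O(1)`

`R = ℤ[π]` is an integral domain with the basis `1, π, …, π ^ (d - 1)` over `ℤ` and (i) `d = 2`, `π² = -N`, or
(ii) `π ^ d = N`, `d ≥ 1`. In both cases the average of the `π`-adic complexities of the `N ^ n` sequences of length
`n` over `{0, …, N - 1}` is `n / 2 + O(1)`, with a constant which depends only on `N` and `d`. (Unique factorisation
is not needed.)

Proof. The complexity of a sequence with the value `x` modulo `π ^ n` is the least size of a vector `(f, g)` with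
`g x ≡ f` modulo `π ^ n` and `g` invertible modulo `π`. Different sequences have different vectors, so few
sequences have complexity below `n / 2 - s`: this is the lower bound. For the upper bound let `B` be the ball of
radius `N ^ (n / (2 d))` in `R²` and consider the homomorphism `(f, g) ↦ (g mod π, g x - f mod π ^ n)`. The number of
coincidences on `B` is bounded on the average over `x` (a small vector is a solution for few `x`: this uses bounds for
the number of small elements of the ideals `(g, π ^ n)`), so the image of `B` is a positive proportion `1 / K` of the group,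
and an argument with disjoint translates shows that the sum of `3 K` copies of the image is the whole group. So
`(1, 0)` is the image of a small vector.
-/

namespace Pool.Agent.Results.MP_cc6759_lc.AverageIsHalf

open Finset Module

universe u

variable {R : Type u} [CommRing R]

/-- The AFSR with the fraction `f / g` outputs the sequence `b`: `g` is invertible modulo `π` and
`f / g = b 0 + b 1 π + b 2 π² + ⋯`, that is, `g (b 0 + ⋯ + b (k - 1) π ^ (k - 1)) ≡ f` modulo `π ^ k` for all `k`. -/
def Outputs (π : R) (b : ℕ → ℕ) (f g : R) : Prop :=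
  IsCoprime g π ∧ ∀ k : ℕ, π ^ k ∣ g * (∑ i ∈ range k, ((b i : ℕ) : R) * π ^ i) - f

/-- The `π`-adic complexity of the finite sequence `a` with digits in `{0, …, N - 1}`, for the size function `φ`: the least
size `max (φ f) (φ g)` of an AFSR which outputs an infinite sequence `b` over `{0, …, N - 1}` that extends `a`. -/
noncomputable def complexity (φ : R → ℝ) (π : R) (N n : ℕ) (a : Fin n → Fin N) : ℝ :=
  sInf {s : ℝ | ∃ b : ℕ → ℕ, (∀ i, b i < N) ∧ (∀ i : Fin n, b i = a i) ∧
    ∃ f g : R, Outputs π b f g ∧ s = max (φ f) (φ g)}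

/-- The average of the complexities of all `N ^ n` sequences of length `n`. -/
noncomputable def Efin (φ : R → ℝ) (π : R) (N n : ℕ) : ℝ :=
  (∑ a : Fin n → Fin N, complexity φ π N n a) / (N : ℝ) ^ n

/-- The size in case (i): `φ(u + v π) = log_N (u² + N v²)`; here `(u, v)` are the coordinates with respect to the basis
`b = (1, π)`. -/
noncomputable def sizeOne (N : ℕ) (b : Basis (Fin 2) ℤ R) (r : R) : ℝ :=
  Real.logb N ((b.repr r 0 : ℝ) ^ 2 + N * (b.repr r 1 : ℝ) ^ 2)

/-- The size in case (ii): `φ(∑ u_i π ^ i) = max (d log_N |u_i| + i)`, the maximum over the `i` with `u_i ≠ 0`; here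
the `u_i` are the coordinates with respect to the basis `b = (1, π, …, π ^ (d - 1))`. -/
noncomputable def sizeTwo (d N : ℕ) (b : Basis (Fin d) ℤ R) (r : R) : ℝ :=
  sSup {s : ℝ | ∃ i : Fin d, b.repr r i ≠ 0 ∧ s = d * Real.logb N |(b.repr r i : ℝ)| + i}

/-- **The average complexity is `n / 2 + O(1)`, in both cases.** -/
theorem result :
    (∀ N : ℕ, 2 ≤ N → ∃ C : ℝ, ∀ (R : Type u) [CommRing R] [IsDomain R] (π : R) (b : Basis (Fin 2) ℤ R),
      (∀ i, b i = π ^ (i : ℕ)) → π ^ 2 = -(N : R) →
      ∀ n : ℕ, |Efin (sizeOne N b) π N n - n / 2| ≤ C) ∧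
    (∀ N d : ℕ, 2 ≤ N → 1 ≤ d → ∃ C : ℝ, ∀ (R : Type u) [CommRing R] [IsDomain R] (π : R) (b : Basis (Fin d) ℤ R),
      (∀ i, b i = π ^ (i : ℕ)) → π ^ d = (N : R) →
      ∀ n : ℕ, |Efin (sizeTwo d N b) π N n - n / 2| ≤ C) := by
  constructor
  · intro N hN
    refine ⟨Pool.Agent.K9h54.PA.Bas.const 2 N + 1, ?_⟩
    intro R _ _ π b hb hπ n
    set S : Pool.Agent.K9h54.PA.Bas R 2 N π (-1) :=
      { b := b, hb := hb, hd := by norm_num, hN := hN, hε := Or.inr rfl, hπ := by rw [hπ]; push_cast; ring } with hS
    have h1 := S.near (Pool.Agent.K9h54.PA.size1 N b) 1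
      (fun r => (Pool.Agent.K9h54.PA.size1_near S r).1)
      (fun r => (Pool.Agent.K9h54.PA.size1_near S r).2) n
    rw [S.CC_eq] at h1
    exact h1
  · intro N d hN hd
    refine ⟨Pool.Agent.K9h54.PA.Bas.const d N, ?_⟩
    intro R _ _ π b hb hπ n
    set S : Pool.Agent.K9h54.PA.Bas R d N π 1 :=
      { b := b, hb := hb, hd := hd, hN := hN, hε := Or.inl rfl, hπ := by rw [hπ]; push_cast; ring } with hS
    have h1 := S.near (Pool.Agent.K9h54.PA.size2 d N b) 0
      (fun r => (Pool.Agent.K9h54.PA.size2_eq S r).ge)
      (fun r => by rw [add_zero]; exact (Pool.Agent.K9h54.PA.size2_eq S r).le) n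
    rw [S.CC_eq, add_zero] at h1
    exact h1

end Pool.Agent.Results.MP_cc6759_lc.AverageIsHalf
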